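import Mathlib

set_option autoImplicit false
set_option linter.unusedSectionVars false

/-!
# Lower and upper thresholds in locally dependent random graphs can be far apart

The property two adjacent edges, or at least `⌊√n⌋` edges has a threshold pair with
`U(n, 1) / L(n, 1) → ∞`.
-/

namespace Pool.Agent.Results.MP_cca6ac_pr.ThresholdGap

open Finset MeasureTheory ProbabilityTheory Filter Topology Asymptotics
open scoped ENNReal

/-! ### Definitions -/

/-- the potential edges of a graph on `Fin n` -/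
abbrev Edge (n : ℕ) := {e : Fin n × Fin n // e.1 < e.2}

/-- A `d`-dependent random graph with edge probability `p` (a probability distribution on graphs on
`Fin n`): every potential edge is present with probability `p`, and there is a dependency graph `D`
of maximum degree at most `d`, so that the indicator of an edge `e` is independent of the family of
the indicators of the edges `f ≠ e` that are not adjacent to `e` in `D`. -/
structure DepGraph (n : ℕ) (p : ℝ) (d : ℕ) (μ : Measure (SimpleGraph (Fin n))) : Prop where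
  prob : IsProbabilityMeasure μ
  edge : ∀ e : Edge n, μ {G | G.Adj e.1.1 e.1.2} = ENNReal.ofReal p
  dep : ∃ D : SimpleGraph (Edge n), (∀ e, {f | D.Adj e f}.ncard ≤ d) ∧
    ∀ e : Edge n, IndepFun (fun G : SimpleGraph (Fin n) => G.Adj e.1.1 e.1.2)
      (fun (G : SimpleGraph (Fin n)) (f : {f : Edge n // f ≠ e ∧ ¬ D.Adj e f}) =>
        G.Adj f.1.1.1 f.1.1.2) μ

/-- a graph property, one set of graphs on `Fin n` for every `n`, is monotone increasing and
invariant under isomorphisms -/
def MonotoneProperty (P : ∀ n, Set (SimpleGraph (Fin n))) : Prop :=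
  (∀ n (G G' : SimpleGraph (Fin n)), G ≤ G' → G ∈ P n → G' ∈ P n) ∧
    ∀ n (G G' : SimpleGraph (Fin n)), Nonempty (G ≃g G') → G ∈ P n → G' ∈ P n

/-- `(L, U)` is a threshold pair for `P` -/
def ThresholdPair (P : ∀ n, Set (SimpleGraph (Fin n))) (L U : ℕ → ℕ → ℝ) : Prop :=
  (∀ n d, 0 < n → 0 < L n d) ∧ (∀ n d, L n d ≤ U n d) ∧
  ∀ (p : ℕ → ℝ) (d : ℕ → ℕ), (∀ n, 0 ≤ p n ∧ p n ≤ 1) →
    ((fun n => (d n : ℝ)) =O[atTop] fun n : ℕ => (n : ℝ) / Real.log n) →
    ((p =o[atTop] fun n => L n (d n)) → ∀ μ : ∀ n, Measure (SimpleGraph (Fin n)),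
      (∀ n, DepGraph n (p n) (d n) (μ n)) → Tendsto (fun n => μ n (P n)) atTop (𝓝 0)) ∧
    (((fun n => U n (d n)) =o[atTop] p) → ∀ μ : ∀ n, Measure (SimpleGraph (Fin n)),
      (∀ n, DepGraph n (p n) (d n) (μ n)) → Tendsto (fun n => μ n (P n)) atTop (𝓝 1)) ∧
    (((fun n => L n (d n)) =o[atTop] p) → (p =o[atTop] fun n => U n (d n)) →
      (∃ μ : ∀ n, Measure (SimpleGraph (Fin n)), (∀ n, DepGraph n (p n) (d n) (μ n)) ∧
        Tendsto (fun n => μ n (P n)) atTop (𝓝 1)) ∧
      ∃ μ : ∀ n, Measure (SimpleGraph (Fin n)), (∀ n, DepGraph n (p n) (d n) (μ n)) ∧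
        Tendsto (fun n => μ n (P n)) atTop (𝓝 0))

/-- `U(n, d) / L(n, d) = O(f(d))` -/
def RatioBounded (L U : ℕ → ℕ → ℝ) (f : ℕ → ℝ) : Prop :=
  ∀ d : ℕ → ℕ, ((fun n => (d n : ℝ)) =O[atTop] fun n : ℕ => (n : ℝ) / Real.log n) →
    (fun n => U n (d n) / L n (d n)) =O[atTop] fun n => f (d n)

/-! ### Measurability -/

section Meas

variable {n : ℕ}

instance : MeasurableSingletonClass (SimpleGraph (Fin n)) := by
  constructor
  intro G
  have h : ({G} : Set (SimpleGraph (Fin n))) =
      ⋂ u : Fin n, ⋂ v : Fin n, {G' | G'.Adj u v = G.Adj u v} := by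
    ext G'
    simp only [Set.mem_singleton_iff, Set.mem_iInter, Set.mem_ofPred_eq]
    constructor
    · rintro rfl u v
      rfl
    · intro h
      ext u v
      rw [h u v]
  rw [h]
  refine MeasurableSet.iInter fun u => MeasurableSet.iInter fun v => ?_
  have h1 : Measurable fun G' : SimpleGraph (Fin n) => G'.Adj u v :=
    (SimpleGraph.measurable_iff_adj.mp measurable_id) u v
  exact h1 (measurableSet_singleton _)

theorem meas_set (s : Set (SimpleGraph (Fin n))) : MeasurableSet s := s.toFinite.measurableSet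

/-- indicator of an edge -/
noncomputable def ind (e : Edge n) : SimpleGraph (Fin n) → ℝ :=
  Set.indicator {G | G.Adj e.1.1 e.1.2} (fun _ => 1)

theorem integrable_any (μ : Measure (SimpleGraph (Fin n))) [IsFiniteMeasure μ]
    (f : SimpleGraph (Fin n) → ℝ) : Integrable f μ := Integrable.of_finite

theorem card_edge : Fintype.card (Edge n) * 2 = n * (n - 1) := by
  have h1 : Fintype.card (Edge n) = ∑ b : Fin n, (b : ℕ) := by
    rw [Fintype.card_subtype]
    have h2 : (univ.filter fun e : Fin n × Fin n => e.1 < e.2) =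
        (univ : Finset (Fin n)).biUnion (fun b => (Iio b).image (fun a => (a, b))) := by
      ext ⟨a, b⟩
      simp only [mem_filter, mem_univ, true_and, mem_biUnion, mem_image, mem_Iio, Prod.mk.injEq]
      constructor
      · intro h
        exact ⟨b, a, h, rfl, rfl⟩
      · rintro ⟨b', a', h, rfl, rfl⟩
        exact h
    rw [h2, card_biUnion]
    · apply sum_congr rfl
      intro b _
      rw [card_image_of_injective _ (fun a a' h => (Prod.mk.inj h).1), Fin.card_Iio]
    · intro b _ b' _ hbb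
      rw [Function.onFun, disjoint_left]
      intro x hx hx'
      simp only [mem_image] at hx hx'
      obtain ⟨a, -, rfl⟩ := hx
      obtain ⟨a', -, h⟩ := hx'
      exact hbb (Prod.mk.inj h).2.symm
  rw [h1, Fin.sum_univ_eq_sum_range (fun i => i) n, sum_range_id_mul_two]

theorem card_edge_real (hn : 1 ≤ n) : (Fintype.card (Edge n) : ℝ) = n * (n - 1) / 2 := by
  have h := card_edge (n := n)
  have h2 : (Fintype.card (Edge n) : ℝ) * 2 = n * (n - 1) := by
    have : ((Fintype.card (Edge n) * 2 : ℕ) : ℝ) = ((n * (n - 1) : ℕ) : ℝ) := by rw [h]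
    push_cast [Nat.cast_sub hn] at this
    exact this
  linarith

/-- the number of edges -/
noncomputable def num (G : SimpleGraph (Fin n)) : ℝ := ∑ e : Edge n, ind e G

theorem num_eq (G : SimpleGraph (Fin n)) : num G = G.edgeSet.ncard := by
  classical
  have h1 : num G = ((univ.filter fun e : Edge n => G.Adj e.1.1 e.1.2).card : ℝ) := by
    unfold num ind
    rw [card_filter]
    push_cast
    apply sum_congr rfl
    intro e _
    simp only [Set.indicator, Set.mem_ofPred_eq]
  rw [h1]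
  have hinj : Function.Injective (fun e : Edge n => s(e.1.1, e.1.2)) := by
    rintro ⟨⟨a, b⟩, h⟩ ⟨⟨a', b'⟩, h'⟩ heq
    simp only [Sym2.eq_iff] at heq
    rcases heq with ⟨rfl, rfl⟩ | ⟨rfl, rfl⟩
    · rfl
    · exact absurd h (not_lt.mpr (le_of_lt h'))
  have h2 : G.edgeSet = (fun e : Edge n => s(e.1.1, e.1.2)) ''
      {e : Edge n | G.Adj e.1.1 e.1.2} := by
    ext s
    induction s using Sym2.ind with
    | _ a b =>
      simp only [SimpleGraph.mem_edgeSet, Set.mem_image, Set.mem_ofPred_eq]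
      constructor
      · intro h
        rcases lt_trichotomy a b with hab | hab | hab
        · exact ⟨⟨(a, b), hab⟩, h, rfl⟩
        · exact absurd hab h.ne
        · exact ⟨⟨(b, a), hab⟩, h.symm, Sym2.eq_swap⟩
      · rintro ⟨⟨⟨a', b'⟩, h'⟩, h1, h2⟩
        simp only [Sym2.eq_iff] at h2
        rcases h2 with ⟨rfl, rfl⟩ | ⟨rfl, rfl⟩
        · exact h1
        · exact h1.symm
  rw [h2, Set.ncard_image_of_injective _ hinj]
  congr 1
  rw [← Set.ncard_coe_finset]
  congr 1
  ext e
  simp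

end Meas

/-! ### Moments -/

section Moments

variable {n : ℕ} {p : ℝ} {d : ℕ} {μ : Measure (SimpleGraph (Fin n))}

theorem integral_ind (h : DepGraph n p d μ) (hp : 0 ≤ p) (e : Edge n) : ∫ G, ind e G ∂μ = p := by
  have := h.prob
  unfold ind
  rw [integral_indicator_const _ (meas_set _), smul_eq_mul, mul_one, Measure.real, h.edge e,
    ENNReal.toReal_ofReal hp]

theorem integral_num (h : DepGraph n p d μ) (hp : 0 ≤ p) :
    ∫ G, num G ∂μ = Fintype.card (Edge n) * p := by
  have := h.prob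
  unfold num
  rw [integral_finsetSum _ (fun e _ => integrable_any μ _), sum_congr rfl
    (fun e _ => integral_ind h hp e), sum_const, card_univ, nsmul_eq_mul]

theorem real_inter (h : DepGraph n p d μ) (D : SimpleGraph (Edge n)) (e f : Edge n)
    (hind : IndepFun (fun G : SimpleGraph (Fin n) => G.Adj e.1.1 e.1.2)
      (fun (G : SimpleGraph (Fin n)) (f : {f : Edge n // f ≠ e ∧ ¬ D.Adj e f}) =>
        G.Adj f.1.1.1 f.1.1.2) μ) (hfe : f ≠ e) (hD : ¬ D.Adj e f) :
    μ ({G | G.Adj e.1.1 e.1.2} ∩ {G | G.Adj f.1.1 f.1.2}) = ENNReal.ofReal p * ENNReal.ofReal p := by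
  have h1 := hind.measure_inter_preimage_eq_mul {True}
    {g | g ⟨f, hfe, hD⟩ = True} (measurableSet_singleton _)
    (measurableSet_eq_fun (measurable_pi_apply _) measurable_const)
  have h2 : (fun G : SimpleGraph (Fin n) => G.Adj e.1.1 e.1.2) ⁻¹' {True} =
      {G | G.Adj e.1.1 e.1.2} := by
    ext G
    simp
  have h3 : (fun (G : SimpleGraph (Fin n)) (f : {f : Edge n // f ≠ e ∧ ¬ D.Adj e f}) =>
        G.Adj f.1.1.1 f.1.1.2) ⁻¹' {g | g ⟨f, hfe, hD⟩ = True} = {G | G.Adj f.1.1 f.1.2} := by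
    ext G
    simp
  rw [h2, h3, h.edge e, h.edge f] at h1
  exact h1

theorem integral_prod (h : DepGraph n p d μ) (hp : 0 ≤ p) (e f : Edge n) :
    ∫ G, (ind e G - p) * (ind f G - p) ∂μ =
      μ.real ({G | G.Adj e.1.1 e.1.2} ∩ {G | G.Adj f.1.1 f.1.2}) - p ^ 2 := by
  have := h.prob
  have h1 : ∀ G, (ind e G - p) * (ind f G - p) =
      ({G : SimpleGraph (Fin n) | G.Adj e.1.1 e.1.2} ∩
        {G | G.Adj f.1.1 f.1.2}).indicator (fun _ => (1 : ℝ)) G - p * ind e G - p * ind f G +
        p ^ 2 := by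
    intro G
    have h2 : ({G : SimpleGraph (Fin n) | G.Adj e.1.1 e.1.2} ∩
        {G | G.Adj f.1.1 f.1.2}).indicator (fun _ => (1 : ℝ)) G = ind e G * ind f G := by
      unfold ind
      rw [← Set.inter_indicator_mul]
      simp
    rw [h2]
    ring
  rw [integral_congr_ae (Eventually.of_forall h1), integral_add (integrable_any μ _)
    (integrable_any μ _), integral_sub (integrable_any μ _) (integrable_any μ _),
    integral_sub (integrable_any μ _) (integrable_any μ _), integral_const_mul,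
    integral_const_mul, integral_ind h hp, integral_ind h hp,
    integral_indicator_const _ (meas_set _), integral_const]
  simp only [smul_eq_mul, mul_one, Measure.real, measure_univ, ENNReal.toReal_one, one_mul]
  ring

theorem variance_bound (h : DepGraph n p d μ) (hp : 0 ≤ p) :
    ∫ G, (num G - Fintype.card (Edge n) * p) ^ 2 ∂μ ≤ Fintype.card (Edge n) * ((d + 1) * p) := by
  classical
  have := h.prob
  obtain ⟨D, hD, hind⟩ := h.dep
  have h1 : ∀ G : SimpleGraph (Fin n), (num G - Fintype.card (Edge n) * p) ^ 2 =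
      ∑ e : Edge n, ∑ f : Edge n, (ind e G - p) * (ind f G - p) := by
    intro G
    rw [← sum_mul_sum, ← sq, sum_sub_distrib, sum_const, card_univ, nsmul_eq_mul]
    rfl
  rw [integral_congr_ae (Eventually.of_forall h1),
    integral_finsetSum _ (fun e _ => integrable_any μ _)]
  have h2 : ∀ e : Edge n, ∫ G, ∑ f : Edge n, (ind e G - p) * (ind f G - p) ∂μ ≤ (d + 1) * p := by
    intro e
    rw [integral_finsetSum _ (fun e _ => integrable_any μ _)]
    have h3 : ∀ f : Edge n, ∫ G, (ind e G - p) * (ind f G - p) ∂μ ≤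
        if f ∈ ({e} ∪ univ.filter (fun f => D.Adj e f) : Finset (Edge n)) then p else 0 := by
      intro f
      rw [integral_prod h hp]
      split_ifs with hf
      · have h4 : μ.real ({G | G.Adj e.1.1 e.1.2} ∩ {G | G.Adj f.1.1 f.1.2}) ≤ p := by
          calc μ.real ({G | G.Adj e.1.1 e.1.2} ∩ {G | G.Adj f.1.1 f.1.2}) ≤
                μ.real {G | G.Adj e.1.1 e.1.2} := measureReal_mono Set.inter_subset_left
            _ = p := by rw [Measure.real, h.edge e, ENNReal.toReal_ofReal hp]
        nlinarith [sq_nonneg p]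
      · simp only [mem_union, mem_singleton, mem_filter, mem_univ, true_and, not_or] at hf
        rw [Measure.real, real_inter h D e f (hind e) hf.1 hf.2, ENNReal.toReal_mul,
          ENNReal.toReal_ofReal hp]
        nlinarith
    calc ∑ f : Edge n, ∫ G, (ind e G - p) * (ind f G - p) ∂μ ≤
          ∑ f : Edge n, if f ∈ ({e} ∪ univ.filter (fun f => D.Adj e f) : Finset (Edge n)) then p
            else 0 := sum_le_sum (fun f _ => h3 f)
      _ = ((({e} ∪ univ.filter (fun f => D.Adj e f) : Finset (Edge n)).card : ℕ) : ℝ) * p := by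
          rw [sum_ite_mem, univ_inter, sum_const, nsmul_eq_mul]
      _ ≤ (d + 1) * p := by
          apply mul_le_mul_of_nonneg_right _ hp
          have h5 : ({e} ∪ univ.filter (fun f => D.Adj e f) : Finset (Edge n)).card ≤ d + 1 := by
            refine le_trans (card_union_le _ _) ?_
            rw [card_singleton]
            have h6 := hD e
            have h7 : {f | D.Adj e f} = ((univ.filter (fun f => D.Adj e f) : Finset (Edge n)) :
              Set (Edge n)) := by
              ext f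
              simp
            rw [h7, Set.ncard_coe_finset] at h6
            omega
          exact_mod_cast h5
  calc ∑ e : Edge n, ∫ G, ∑ f : Edge n, (ind e G - p) * (ind f G - p) ∂μ ≤
        ∑ e : Edge n, (d + 1) * p := sum_le_sum (fun e _ => h2 e)
    _ = _ := by rw [sum_const, card_univ, nsmul_eq_mul]

end Moments

/-! ### Cluster graphs -/

section Cluster

variable {n : ℕ} {ι : Type} [Fintype ι] [DecidableEq ι]

/-- Bernoulli measure on `Bool` -/
noncomputable def bern (p : ℝ) : Measure Bool :=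
  ENNReal.ofReal p • Measure.dirac true + ENNReal.ofReal (1 - p) • Measure.dirac false

theorem bern_prob (p : ℝ) (h0 : 0 ≤ p) (h1 : p ≤ 1) : IsProbabilityMeasure (bern p) := by
  constructor
  unfold bern
  simp only [Measure.coe_add, Measure.coe_smul, Pi.add_apply, Pi.smul_apply, measure_univ,
    smul_eq_mul, mul_one]
  rw [← ENNReal.ofReal_add h0 (by linarith)]
  simp

theorem bern_true (p : ℝ) : bern p {true} = ENNReal.ofReal p := by
  unfold bern
  simp

theorem bern_false (p : ℝ) : bern p {false} = ENNReal.ofReal (1 - p) := by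
  unfold bern
  simp

/-- the graph whose edges are those of the chosen clusters -/
def gr (κ : Edge n → ι) (ω : ι → Bool) : SimpleGraph (Fin n) where
  Adj a b := ∃ e : Edge n, (e.1 = (a, b) ∨ e.1 = (b, a)) ∧ ω (κ e) = true
  symm := ⟨fun a b ⟨e, h1, h2⟩ => ⟨e, h1.symm, h2⟩⟩
  loopless := ⟨fun a ⟨e, h1, _⟩ => by
    have h2 := e.2
    rcases h1 with h1 | h1 <;> rw [h1] at h2 <;> exact lt_irrefl _ h2⟩

theorem gr_adj (κ : Edge n → ι) (ω : ι → Bool) (e : Edge n) :
    (gr κ ω).Adj e.1.1 e.1.2 ↔ ω (κ e) = true := by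
  constructor
  · rintro ⟨f, h1, h2⟩
    have : f = e := by
      rcases h1 with h1 | h1
      · exact Subtype.ext h1
      · have h3 := f.2
        rw [h1] at h3
        exact absurd h3 (not_lt.mpr e.2.le)
    rw [← this]
    exact h2
  · intro h
    exact ⟨e, Or.inl rfl, h⟩

/-- the law of the cluster graph -/
noncomputable def cl (p : ℝ) (κ : Edge n → ι) : Measure (SimpleGraph (Fin n)) :=
  Measure.map (gr κ) (Measure.pi fun _ : ι => bern p)

theorem measurable_gr (κ : Edge n → ι) : Measurable (gr κ) := by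
  apply measurable_of_countable

theorem cl_apply (p : ℝ) (κ : Edge n → ι) (s : Set (SimpleGraph (Fin n))) :
    cl p κ s = Measure.pi (fun _ : ι => bern p) (gr κ ⁻¹' s) :=
  Measure.map_apply (measurable_gr κ) (meas_set s)

theorem pi_true (p : ℝ) (h0 : 0 ≤ p) (h1 : p ≤ 1) (i : ι) :
    Measure.pi (fun _ : ι => bern p) {ω | ω i = true} = ENNReal.ofReal p := by
  have := bern_prob p h0 h1
  have h2 : {ω : ι → Bool | ω i = true} = (fun ω => ω i) ⁻¹' {true} := by
    ext ω
    simp
  rw [h2, (measurePreserving_eval (fun _ : ι => bern p) i).measure_preimage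
    (measurableSet_singleton _).nullMeasurableSet, bern_true]

theorem pi_false (p : ℝ) (h0 : 0 ≤ p) (h1 : p ≤ 1) (I : Finset ι) :
    Measure.pi (fun _ : ι => bern p) {ω | ∀ i ∈ I, ω i = false} =
      ENNReal.ofReal (1 - p) ^ I.card := by
  have := bern_prob p h0 h1
  have h2 : {ω : ι → Bool | ∀ i ∈ I, ω i = false} =
      Set.univ.pi (fun i => if i ∈ I then {false} else Set.univ) := by
    ext ω
    simp only [Set.mem_ofPred_eq, Set.mem_univ_pi]
    constructor
    · intro h i
      split_ifs with hi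
      · exact h i hi
      · trivial
    · intro h i hi
      have := h i
      rw [if_pos hi] at this
      exact this
  rw [h2, Measure.pi_pi]
  have h3 : ∀ i : ι, bern p (if i ∈ I then {false} else Set.univ) =
      if i ∈ I then ENNReal.ofReal (1 - p) else 1 := by
    intro i
    split_ifs
    · exact bern_false p
    · exact measure_univ
  rw [prod_congr rfl (fun i _ => h3 i), prod_ite_mem, univ_inter, prod_const]

theorem cl_dep (p : ℝ) (h0 : 0 ≤ p) (h1 : p ≤ 1) (κ : Edge n → ι) (d : ℕ)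
    (hκ : ∀ e : Edge n, {f : Edge n | f ≠ e ∧ κ f = κ e}.ncard ≤ d) :
    DepGraph n p d (cl p κ) := by
  have := bern_prob p h0 h1
  refine ⟨Measure.isProbabilityMeasure_map (measurable_gr κ).aemeasurable, ?_, ?_⟩
  · intro e
    rw [cl_apply]
    have h2 : gr κ ⁻¹' {G | G.Adj e.1.1 e.1.2} = {ω | ω (κ e) = true} := by
      ext ω
      exact gr_adj κ ω e
    rw [h2, pi_true p h0 h1]
  · let D : SimpleGraph (Edge n) :=
      { Adj := fun e f => f ≠ e ∧ κ f = κ e
        symm := ⟨fun e f h => ⟨h.1.symm, h.2.symm⟩⟩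
        loopless := ⟨fun e h => h.1 rfl⟩ }
    refine ⟨D, hκ, fun e => ?_⟩
    rw [indepFun_iff_measure_inter_preimage_eq_mul]
    intro s t hs ht
    rw [cl_apply, cl_apply, cl_apply]
    have hind : iIndepFun (fun (i : ι) (ω : ι → Bool) => ω i) (Measure.pi fun _ : ι => bern p) :=
      iIndepFun_pi (X := fun _ => id) (fun _ => aemeasurable_id)
    have h2 := hind.indepFun_finset {κ e} (univ.erase (κ e))
      (by rw [disjoint_singleton_left]; exact notMem_erase _ _)
      (fun i => measurable_pi_apply i)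
    -- the two functions factor through the restrictions
    have h3 : (fun ω : ι → Bool => (gr κ ω).Adj e.1.1 e.1.2) =
        (fun g : ({κ e} : Finset ι) → Bool => (g ⟨κ e, mem_singleton_self _⟩ = true)) ∘
          (fun ω (i : ({κ e} : Finset ι)) => ω i) := by
      funext ω
      exact propext (gr_adj κ ω e)
    have hmem : ∀ f : {f : Edge n // f ≠ e ∧ ¬ D.Adj e f}, κ f.1 ∈ univ.erase (κ e) := by
      intro f
      rw [mem_erase]
      exact ⟨fun h => f.2.2 ⟨f.2.1, h⟩, mem_univ _⟩
    have h4 : (fun (ω : ι → Bool) (f : {f : Edge n // f ≠ e ∧ ¬ D.Adj e f}) =>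
        (gr κ ω).Adj f.1.1.1 f.1.1.2) =
        (fun (g : (univ.erase (κ e) : Finset ι) → Bool)
          (f : {f : Edge n // f ≠ e ∧ ¬ D.Adj e f}) => (g ⟨κ f.1, hmem f⟩ = true)) ∘
          (fun ω (i : (univ.erase (κ e) : Finset ι)) => ω i) := by
      funext ω f
      exact propext (gr_adj κ ω f.1)
    have h5 := h2.comp (φ := fun g : ({κ e} : Finset ι) → Bool =>
        (g ⟨κ e, mem_singleton_self _⟩ = true))
      (ψ := fun (g : (univ.erase (κ e) : Finset ι) → Bool)
          (f : {f : Edge n // f ≠ e ∧ ¬ D.Adj e f}) => (g ⟨κ f.1, hmem f⟩ = true))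
      (measurable_of_countable _) (measurable_of_countable _)
    rw [← h3, ← h4] at h5
    exact h5.measure_inter_preimage_eq_mul s t hs ht

end Cluster

/-! ### The property and its thresholds -/

section Property

/-- two adjacent edges, or at least `⌊√n⌋` edges -/
def P (n : ℕ) : Set (SimpleGraph (Fin n)) :=
  {G | (∃ a b c, b ≠ c ∧ G.Adj a b ∧ G.Adj a c) ∨ Nat.sqrt n ≤ G.edgeSet.ncard}

/-- lower threshold -/
noncomputable def L (n d : ℕ) : ℝ := if d = 0 then (Nat.sqrt n : ℝ) / n ^ 2 else 1 / n ^ 2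

/-- upper threshold -/
noncomputable def U (n d : ℕ) : ℝ := max (Nat.sqrt n : ℝ) (d + 1) / n ^ 2

theorem P_monotone : MonotoneProperty P := by
  constructor
  · rintro n G G' h (⟨a, b, c, hbc, h1, h2⟩ | h1)
    · exact Or.inl ⟨a, b, c, hbc, h h1, h h2⟩
    · right
      exact h1.trans (Set.ncard_le_ncard (SimpleGraph.edgeSet_mono h) (Set.toFinite _))
  · rintro n G G' ⟨φ⟩ (⟨a, b, c, hbc, h1, h2⟩ | h1)
    · exact Or.inl ⟨φ a, φ b, φ c, φ.injective.ne hbc, φ.map_adj_iff.mpr h1, φ.map_adj_iff.mpr h2⟩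
    · right
      have : G.edgeSet.ncard = G'.edgeSet.ncard := by
        rw [← Nat.card_coe_set_eq, ← Nat.card_coe_set_eq]
        exact Nat.card_congr φ.mapEdgeSet
      rwa [← this]

theorem sqrt_pos {n : ℕ} (hn : 1 ≤ n) : 1 ≤ Nat.sqrt n := Nat.sqrt_pos.mpr hn

theorem L_pos (n d : ℕ) (hn : 0 < n) : 0 < L n d := by
  have h1 : (0 : ℝ) < n := by exact_mod_cast hn
  have h2 : (0 : ℝ) < Nat.sqrt n := by exact_mod_cast sqrt_pos hn
  unfold L
  split_ifs <;> positivity

theorem L_nonneg (n d : ℕ) : 0 ≤ L n d := by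
  unfold L
  split_ifs <;> positivity

theorem U_nonneg (n d : ℕ) : 0 ≤ U n d := by
  unfold U
  have : (0 : ℝ) ≤ max (Nat.sqrt n : ℝ) (d + 1) := le_max_of_le_left (Nat.cast_nonneg _)
  positivity

theorem L_le_U (n d : ℕ) : L n d ≤ U n d := by
  unfold L U
  split_ifs
  · exact div_le_div_of_nonneg_right (le_max_left _ _) (sq_nonneg _)
  · apply div_le_div_of_nonneg_right _ (sq_nonneg _)
    refine le_max_of_le_right ?_
    have : (0 : ℝ) ≤ d := Nat.cast_nonneg d
    linarith

variable {n : ℕ} {p : ℝ} {d : ℕ} {μ : Measure (SimpleGraph (Fin n))}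

theorem num_nonneg (G : SimpleGraph (Fin n)) : 0 ≤ num G := by
  rw [num_eq]
  exact Nat.cast_nonneg _

theorem exists_edge (a b : Fin n) (h : a ≠ b) : ∃ e : Edge n, e.1 = (a, b) ∨ e.1 = (b, a) := by
  rcases lt_or_gt_of_ne h with h | h
  · exact ⟨⟨(a, b), h⟩, Or.inl rfl⟩
  · exact ⟨⟨(b, a), h⟩, Or.inr rfl⟩

theorem adj_iff (G : SimpleGraph (Fin n)) (a b : Fin n) (e : Edge n)
    (he : e.1 = (a, b) ∨ e.1 = (b, a)) : G.Adj a b ↔ G.Adj e.1.1 e.1.2 := by
  rcases he with h | h
  · rw [h]
  · rw [h]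
    exact G.adj_comm a b

theorem one_le_num (G : SimpleGraph (Fin n)) (a b : Fin n) (h : G.Adj a b) : 1 ≤ num G := by
  obtain ⟨e, he⟩ := exists_edge a b h.ne
  have h1 := (adj_iff G a b e he).mp h
  have h2 : ind e G = 1 :=
    Set.indicator_of_mem (show G ∈ {G : SimpleGraph (Fin n) | G.Adj e.1.1 e.1.2} from h1) _
  have h3 : ind e G ≤ num G := by
    unfold num
    apply single_le_sum (f := fun e => ind e G) _ (mem_univ e)
    intro f _
    exact Set.indicator_nonneg (fun _ _ => zero_le_one) _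
  rw [h2] at h3
  exact h3

theorem markov (h : DepGraph n p d μ) (hp : 0 ≤ p) (k : ℝ) :
    k * μ.real {G | k ≤ num G} ≤ Fintype.card (Edge n) * p := by
  have := h.prob
  rw [← integral_num h hp]
  exact mul_meas_ge_le_integral_of_nonneg (Eventually.of_forall fun G => num_nonneg G)
    (integrable_any μ _) k

theorem cherry (h : DepGraph n p 0 μ) (hp : 0 ≤ p) :
    μ.real {G | ∃ a b c, b ≠ c ∧ G.Adj a b ∧ G.Adj a c} ≤ n ^ 3 * p ^ 2 := by
  have := h.prob
  obtain ⟨D, hD, hind⟩ := h.dep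
  have hD' : ∀ e f, ¬ D.Adj e f := by
    intro e f hef
    have h1 := hD e
    rw [Nat.le_zero, Set.ncard_eq_zero (Set.toFinite _)] at h1
    have : f ∈ ({f | D.Adj e f} : Set (Edge n)) := hef
    rw [h1] at this
    exact this
  have h1 : {G : SimpleGraph (Fin n) | ∃ a b c, b ≠ c ∧ G.Adj a b ∧ G.Adj a c} =
      ⋃ t : Fin n × Fin n × Fin n, {G | t.2.1 ≠ t.2.2 ∧ G.Adj t.1 t.2.1 ∧ G.Adj t.1 t.2.2} := by
    ext G
    simp only [Set.mem_ofPred_eq, Set.mem_iUnion, Prod.exists]
  rw [h1]
  refine le_trans (measureReal_iUnion_fintype_le _) ?_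
  have h2 : ∀ t : Fin n × Fin n × Fin n,
      μ.real {G | t.2.1 ≠ t.2.2 ∧ G.Adj t.1 t.2.1 ∧ G.Adj t.1 t.2.2} ≤ p ^ 2 := by
    rintro ⟨a, b, c⟩
    by_cases hb : b = c
    · have : {G : SimpleGraph (Fin n) | b ≠ c ∧ G.Adj a b ∧ G.Adj a c} = ∅ := by
        ext G
        simp [hb]
      rw [this, measureReal_empty]
      positivity
    by_cases hab : a = b
    · have : {G : SimpleGraph (Fin n) | b ≠ c ∧ G.Adj a b ∧ G.Adj a c} = ∅ := by
        ext G
        simp [hab]
      rw [this, measureReal_empty]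
      positivity
    by_cases hac : a = c
    · have : {G : SimpleGraph (Fin n) | b ≠ c ∧ G.Adj a b ∧ G.Adj a c} = ∅ := by
        ext G
        simp [hac]
      rw [this, measureReal_empty]
      positivity
    obtain ⟨e, he⟩ := exists_edge a b hab
    obtain ⟨f, hf⟩ := exists_edge a c hac
    have hfe : f ≠ e := by
      intro hfe
      rw [hfe] at hf
      rcases he with h3 | h3 <;> rcases hf with h4 | h4
      · rw [h3] at h4
        exact hb (Prod.mk.inj h4).2
      · rw [h3] at h4
        exact hac (Prod.mk.inj h4).1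
      · rw [h3] at h4
        exact hab (Prod.mk.inj h4).1.symm
      · rw [h3] at h4
        exact hb (Prod.mk.inj h4).1
    have h3 : {G : SimpleGraph (Fin n) | b ≠ c ∧ G.Adj a b ∧ G.Adj a c} =
        {G | G.Adj e.1.1 e.1.2} ∩ {G | G.Adj f.1.1 f.1.2} := by
      ext G
      simp only [Set.mem_ofPred_eq, Set.mem_inter_iff]
      rw [adj_iff G a b e he, adj_iff G a c f hf]
      tauto
    show μ.real {G : SimpleGraph (Fin n) | b ≠ c ∧ G.Adj a b ∧ G.Adj a c} ≤ p ^ 2
    rw [h3, Measure.real, real_inter h D e f (hind e) hfe (hD' e f), ENNReal.toReal_mul,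
      ENNReal.toReal_ofReal hp, sq]
  calc ∑ t : Fin n × Fin n × Fin n,
        μ.real {G | t.2.1 ≠ t.2.2 ∧ G.Adj t.1 t.2.1 ∧ G.Adj t.1 t.2.2} ≤
        ∑ t : Fin n × Fin n × Fin n, p ^ 2 := sum_le_sum (fun t _ => h2 t)
    _ = n ^ 3 * p ^ 2 := by
        rw [sum_const, card_univ, nsmul_eq_mul]
        simp only [Fintype.card_prod, Fintype.card_fin]
        push_cast
        ring

theorem lack (hn : 1 ≤ n) (h : DepGraph n p d μ) (hp : 0 ≤ p) (c : ℝ) (hc : 0 < c) (hc1 : c ≤ 1)
    (hpL : p ≤ c * L n d) : μ.real (P n) ≤ 2 * c := by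
  have := h.prob
  have hn0 : (1 : ℝ) ≤ n := by exact_mod_cast hn
  have hn1 : (0 : ℝ) < n := by linarith
  have hN : (Fintype.card (Edge n) : ℝ) ≤ n ^ 2 / 2 := by
    rw [card_edge_real hn]
    nlinarith
  have hs : (1 : ℝ) ≤ Nat.sqrt n := by exact_mod_cast sqrt_pos hn
  unfold L at hpL
  split_ifs at hpL with hd
  · subst hd
    have h1 : P n ⊆ {G | ∃ a b c, b ≠ c ∧ G.Adj a b ∧ G.Adj a c} ∪
        {G | (Nat.sqrt n : ℝ) ≤ num G} := by
      rintro G (h1 | h1)
      · exact Or.inl h1
      · right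
        show (Nat.sqrt n : ℝ) ≤ num G
        rw [num_eq]
        exact_mod_cast h1
    have h2 : μ.real (P n) ≤ μ.real {G | ∃ a b c, b ≠ c ∧ G.Adj a b ∧ G.Adj a c} +
        μ.real {G | (Nat.sqrt n : ℝ) ≤ num G} :=
      (measureReal_mono h1).trans (measureReal_union_le _ _)
    have h3 := cherry h hp
    have h4 := markov h hp (Nat.sqrt n)
    have h5 : (n : ℝ) ^ 3 * p ^ 2 ≤ c := by
      have h6 : p ^ 2 ≤ (c * ((Nat.sqrt n : ℝ) / n ^ 2)) ^ 2 := pow_le_pow_left₀ hp hpL 2
      have h7 : (Nat.sqrt n : ℝ) ^ 2 ≤ n := by exact_mod_cast Nat.sqrt_le' n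
      calc (n : ℝ) ^ 3 * p ^ 2 ≤ n ^ 3 * (c * ((Nat.sqrt n : ℝ) / n ^ 2)) ^ 2 :=
            mul_le_mul_of_nonneg_left h6 (by positivity)
        _ = c ^ 2 * ((Nat.sqrt n : ℝ) ^ 2 / n) := by
            field_simp
        _ ≤ c ^ 2 * 1 := by
            apply mul_le_mul_of_nonneg_left _ (by positivity)
            rw [div_le_one hn1]
            exact h7
        _ ≤ c := by nlinarith
    have h6 : μ.real {G | (Nat.sqrt n : ℝ) ≤ num G} ≤ c := by
      have h7 : (Nat.sqrt n : ℝ) * μ.real {G | (Nat.sqrt n : ℝ) ≤ num G} ≤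
          (Nat.sqrt n : ℝ) * (c / 2) := by
        refine h4.trans ?_
        calc (Fintype.card (Edge n) : ℝ) * p ≤ (n ^ 2 / 2) * (c * ((Nat.sqrt n : ℝ) / n ^ 2)) :=
              mul_le_mul hN hpL hp (by positivity)
          _ = (Nat.sqrt n : ℝ) * (c / 2) := by field_simp
      have h8 := le_of_mul_le_mul_left h7 (by linarith)
      linarith
    linarith
  · have h1 : P n ⊆ {G | (1 : ℝ) ≤ num G} := by
      rintro G (⟨a, b, c, -, h1, -⟩ | h1)
      · exact one_le_num G a b h1
      · show (1 : ℝ) ≤ num G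
        rw [num_eq]
        have : 1 ≤ G.edgeSet.ncard := (sqrt_pos hn).trans h1
        exact_mod_cast this
    have h2 := markov h hp 1
    rw [one_mul] at h2
    calc μ.real (P n) ≤ μ.real {G | (1 : ℝ) ≤ num G} := measureReal_mono h1
      _ ≤ Fintype.card (Edge n) * p := h2
      _ ≤ (n ^ 2 / 2) * (c * (1 / n ^ 2)) := mul_le_mul hN hpL hp (by positivity)
      _ = c / 2 := by field_simp
      _ ≤ 2 * c := by linarith

theorem have_P (hn : 2 ≤ n) (h : DepGraph n p d μ) (K : ℝ) (hK : 8 ≤ K) (hpU : K * U n d ≤ p) :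
    1 - 16 / K ≤ μ.real (P n) := by
  have := h.prob
  have hn2 : (2 : ℝ) ≤ n := by exact_mod_cast hn
  have hn0 : (0 : ℝ) < n := by linarith
  have hK0 : 0 < K := by linarith
  have hp : 0 ≤ p := le_trans (mul_nonneg hK0.le (U_nonneg n d)) hpU
  set N : ℝ := (Fintype.card (Edge n) : ℝ) with hNdef
  have hN : (n : ℝ) ^ 2 / 4 ≤ N := by
    rw [hNdef, card_edge_real (by omega)]
    nlinarith
  have hd : (0 : ℝ) ≤ d := Nat.cast_nonneg d
  have hNp : K * max (Nat.sqrt n : ℝ) (d + 1) / 4 ≤ N * p := by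
    calc K * max (Nat.sqrt n : ℝ) (d + 1) / 4 = ((n : ℝ) ^ 2 / 4) * (K * U n d) := by
          unfold U
          field_simp
      _ ≤ N * p := mul_le_mul hN hpU (mul_nonneg hK0.le (U_nonneg n d)) (by positivity)
  have h1 : K * (d + 1) / 4 ≤ N * p := by
    refine le_trans ?_ hNp
    have := le_max_right (Nat.sqrt n : ℝ) ((d : ℝ) + 1)
    nlinarith
  have h2 : (Nat.sqrt n : ℝ) ≤ N * p / 2 := by
    have h3 := le_max_left (Nat.sqrt n : ℝ) ((d : ℝ) + 1)
    have h4 : (0 : ℝ) ≤ Nat.sqrt n := Nat.cast_nonneg _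
    nlinarith
  have hNp0 : 0 < N * p := lt_of_lt_of_le (by positivity) h1
  have h3 : (P n)ᶜ ⊆ {G | (N * p / 2) ^ 2 ≤ (num G - N * p) ^ 2} := by
    intro G hG
    have h4 : num G < Nat.sqrt n := by
      by_contra hcon
      rw [not_lt, num_eq] at hcon
      exact hG (Or.inr (by exact_mod_cast hcon))
    show (N * p / 2) ^ 2 ≤ (num G - N * p) ^ 2
    nlinarith
  have h4 := mul_meas_ge_le_integral_of_nonneg (μ := μ) (f := fun G => (num G - N * p) ^ 2)
    (Eventually.of_forall fun G => sq_nonneg _) (integrable_any μ _) ((N * p / 2) ^ 2)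
  have h5 := h4.trans (variance_bound h hp)
  have h6 : μ.real (P n)ᶜ ≤ 16 / K := by
    refine le_trans (measureReal_mono h3) ?_
    have h7 : (N * p / 2) ^ 2 * μ.real {G | (N * p / 2) ^ 2 ≤ (num G - N * p) ^ 2} ≤
        (N * p / 2) ^ 2 * (16 / K) := by
      refine h5.trans ?_
      have h8 : (d + 1 : ℝ) ≤ 4 * (N * p) / K := by
        rw [le_div_iff₀ hK0]
        linarith
      calc N * ((d + 1) * p) = (N * p) * (d + 1) := by ring
        _ ≤ (N * p) * (4 * (N * p) / K) := mul_le_mul_of_nonneg_left h8 hNp0.le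
        _ = (N * p / 2) ^ 2 * (16 / K) := by ring
    exact le_of_mul_le_mul_left h7 (by positivity)
  rw [probReal_compl_eq_one_sub (meas_set _)] at h6
  linarith

theorem pairs (n : ℕ) (p : ℝ) (h0 : 0 ≤ p) (h1 : p ≤ 1) (d : ℕ) (hd : 1 ≤ d) :
    ∃ μ : Measure (SimpleGraph (Fin n)), DepGraph n p d μ ∧
      1 - Real.exp (-(p * ((n / 4 : ℕ) : ℝ) ^ 2)) ≤ μ.real (P n) := by
  set κ : Edge n → Fin n × Fin n := fun e => (e.1.1, ⟨e.1.2 / 2, by
    have := e.1.2.2
    omega⟩) with hκ
  have hdep : DepGraph n p d (cl p κ) := by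
    apply cl_dep p h0 h1
    intro e
    refine le_trans ?_ hd
    rw [Set.ncard_le_one (Set.toFinite _)]
    rintro ⟨⟨a, b⟩, h⟩ ⟨h2, h3⟩ ⟨⟨a', b'⟩, h'⟩ ⟨h2', h3'⟩
    obtain ⟨⟨a'', b''⟩, h''⟩ := e
    simp only [hκ, Prod.mk.injEq, Fin.mk.injEq, ne_eq, Subtype.mk.injEq, not_and] at h2 h3 h2' h3' ⊢
    obtain ⟨rfl, h4⟩ := h3
    obtain ⟨rfl, h4'⟩ := h3'
    refine ⟨rfl, ?_⟩
    have h5 := h2 rfl
    have h5' := h2' rfl
    rw [Fin.ext_iff] at h5 h5' ⊢
    omega
  refine ⟨cl p κ, hdep, ?_⟩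
  have hpi := bern_prob p h0 h1
  have := hdep.prob
  set q := n / 4 with hq
  have hqn : 4 * q ≤ n := by omega
  let φ : Fin q × Fin q → Fin n × Fin n := fun t =>
    (⟨t.1, by have := t.1.2; omega⟩, ⟨q + t.2, by have := t.2.2; omega⟩)
  have hφ : Function.Injective φ := by
    rintro ⟨a, b⟩ ⟨a', b'⟩ h
    simp only [φ, Prod.mk.injEq, Fin.mk.injEq] at h
    apply Prod.ext
    · exact Fin.ext h.1
    · apply Fin.ext
      have h2 : q + (b : ℕ) = q + (b' : ℕ) := h.2
      show (b : ℕ) = b'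
      omega
  have h2 : gr κ ⁻¹' (P n)ᶜ ⊆ {ω | ∀ i ∈ univ.image φ, ω i = false} := by
    intro ω hω i hi
    obtain ⟨⟨a, b⟩, -, rfl⟩ := mem_image.mp hi
    by_contra hcon
    rw [Bool.not_eq_false] at hcon
    apply hω
    left
    have ha := a.2
    have hb := b.2
    let e : Edge n := ⟨(⟨a, by omega⟩, ⟨2 * (q + b), by omega⟩), by
      show (a : ℕ) < 2 * (q + b)
      omega⟩
    let f : Edge n := ⟨(⟨a, by omega⟩, ⟨2 * (q + b) + 1, by omega⟩), by
      show (a : ℕ) < 2 * (q + b) + 1
      omega⟩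
    have hκe : κ e = φ (a, b) := by
      simp only [hκ, e, φ, Prod.mk.injEq, Fin.mk.injEq, true_and]
      omega
    have hκf : κ f = φ (a, b) := by
      simp only [hκ, f, φ, Prod.mk.injEq, Fin.mk.injEq, true_and]
      omega
    refine ⟨⟨a, by omega⟩, ⟨2 * (q + b), by omega⟩, ⟨2 * (q + b) + 1, by omega⟩, ?_, ?_, ?_⟩
    · intro h
      rw [Fin.mk.injEq] at h
      omega
    · exact (gr_adj κ ω e).mpr (by rw [hκe]; exact hcon)
    · exact (gr_adj κ ω f).mpr (by rw [hκf]; exact hcon)
  have h3 : (cl p κ).real (P n)ᶜ ≤ Real.exp (-(p * (q : ℝ) ^ 2)) := by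
    have h4 : cl p κ (P n)ᶜ ≤ ENNReal.ofReal (1 - p) ^ (q * q) := by
      rw [cl_apply]
      refine (measure_mono h2).trans ?_
      rw [pi_false p h0 h1, card_image_of_injective _ hφ, card_univ, Fintype.card_prod,
        Fintype.card_fin]
    have h5 : (cl p κ).real (P n)ᶜ ≤ (1 - p) ^ (q * q) := by
      rw [Measure.real]
      apply ENNReal.toReal_le_of_le_ofReal (by
        have : 0 ≤ 1 - p := by linarith
        positivity)
      rw [ENNReal.ofReal_pow (by linarith)]
      exact h4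
    refine h5.trans ?_
    calc (1 - p) ^ (q * q) ≤ (Real.exp (-p)) ^ (q * q) :=
          pow_le_pow_left₀ (by linarith) (Real.one_sub_le_exp_neg p) _
      _ = Real.exp (-(p * (q : ℝ) ^ 2)) := by
          rw [← Real.exp_nat_mul]
          congr 1
          push_cast
          ring
  rw [probReal_compl_eq_one_sub (meas_set _)] at h3
  linarith

theorem low (n : ℕ) (p : ℝ) (h0 : 0 ≤ p) (h1 : p ≤ 1) (d : ℕ) :
    ∃ μ : Measure (SimpleGraph (Fin n)), DepGraph n p d μ ∧
      ∀ c : ℝ, 0 < c → c ≤ 1 → 1 ≤ n → d + 1 ≤ n ^ 2 → p ≤ c * U n d → μ.real (P n) ≤ 2 * c := by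
  by_cases hd : d + 1 ≤ Nat.sqrt n
  · -- independent edges
    have hzero : ∀ e : Edge n, {f : Edge n | f ≠ e ∧ id f = id e}.ncard ≤ 0 := by
      intro e
      have : {f : Edge n | f ≠ e ∧ id f = id e} = ∅ := by
        ext f
        simp
      rw [this, Set.ncard_empty]
    refine ⟨cl p (id : Edge n → Edge n), cl_dep p h0 h1 _ d (fun e => (hzero e).trans
      (Nat.zero_le d)), ?_⟩
    intro c hc hc1 hn _ hpU
    apply lack hn (cl_dep p h0 h1 _ 0 hzero) h0 c hc hc1
    refine hpU.trans ?_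
    apply mul_le_mul_of_nonneg_left _ hc.le
    unfold U L
    rw [if_pos rfl, max_eq_left]
    exact_mod_cast hd
  · -- blocks of size `d + 1`
    rw [not_le] at hd
    set N := Fintype.card (Edge n) with hN
    let idx : Edge n ≃ Fin N := Fintype.equivFin (Edge n)
    let κ : Edge n → Fin (N / (d + 1) + 1) := fun e => ⟨idx e / (d + 1), by
      have h2 := (idx e).2
      have h3 : (idx e : ℕ) / (d + 1) ≤ N / (d + 1) := Nat.div_le_div_right h2.le
      omega⟩
    have hdep : DepGraph n p d (cl p κ) := by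
      apply cl_dep p h0 h1
      intro e
      have h2 : {f : Edge n | κ f = κ e}.ncard ≤ d + 1 := by
        have h3 : (fun f : Edge n => (idx f : ℕ)) '' {f : Edge n | κ f = κ e} ⊆
            (Ico ((idx e : ℕ) / (d + 1) * (d + 1)) (((idx e : ℕ) / (d + 1) + 1) * (d + 1)) :
              Finset ℕ) := by
          rintro _ ⟨f, hf, rfl⟩
          have h4 : (idx f : ℕ) / (d + 1) = (idx e : ℕ) / (d + 1) := by
            have := hf
            simp only [κ, Set.mem_ofPred_eq, Fin.mk.injEq] at this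
            exact this
          rw [coe_Ico, Set.mem_Ico, ← h4]
          refine ⟨Nat.div_mul_le_self _ _, ?_⟩
          have h7 := Nat.div_add_mod (idx f : ℕ) (d + 1)
          have h8 := Nat.mod_lt (idx f : ℕ) (show d + 1 > 0 by omega)
          have h9 : ((idx f : ℕ) / (d + 1) + 1) * (d + 1) =
              (d + 1) * ((idx f : ℕ) / (d + 1)) + (d + 1) := by ring
          rw [h9]
          show (idx f : ℕ) < _
          omega
        have h5 := Set.ncard_le_ncard h3 (Finset.finite_toSet _)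
        rw [Set.ncard_coe_finset, Nat.card_Ico, Set.ncard_image_of_injective _ (by
          intro a b hab
          exact idx.injective (Fin.ext hab))] at h5
        have h6 : ((idx e : ℕ) / (d + 1) + 1) * (d + 1) - (idx e : ℕ) / (d + 1) * (d + 1) =
            d + 1 := by
          rw [add_mul, one_mul]
          omega
        omega
      have h3 : {f : Edge n | f ≠ e ∧ κ f = κ e} = {f : Edge n | κ f = κ e} \ {e} := by
        ext f
        simp only [Set.mem_ofPred_eq, Set.mem_diff, Set.mem_singleton_iff]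
        tauto
      rw [h3, Set.ncard_diff_singleton_of_mem (by simp)]
      omega
    refine ⟨cl p κ, hdep, ?_⟩
    intro c hc hc1 hn hdn hpU
    have hpi := bern_prob p h0 h1
    have hn0 : (1 : ℝ) ≤ n := by exact_mod_cast hn
    have hn1 : (0 : ℝ) < n := by linarith
    have h2 : gr κ ⁻¹' (P n) ⊆ ⋃ i : Fin (N / (d + 1) + 1), {ω | ω i = true} := by
      intro ω hω
      have h3 : ∃ a b, (gr κ ω).Adj a b := by
        rcases hω with ⟨a, b, c, -, h4, -⟩ | h4
        · exact ⟨a, b, h4⟩
        · by_contra hcon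
          push Not at hcon
          have h5 : (gr κ ω).edgeSet = ∅ := by
            ext s
            induction s using Sym2.ind with
            | _ a b => simpa using hcon a b
          rw [h5, Set.ncard_empty] at h4
          have := sqrt_pos hn
          omega
      obtain ⟨a, b, e, -, h4⟩ := h3
      exact Set.mem_iUnion.mpr ⟨κ e, h4⟩
    have h3 : (cl p κ) (P n) ≤ ((N / (d + 1) + 1 : ℕ) : ℝ≥0∞) * ENNReal.ofReal p := by
      rw [cl_apply]
      refine (measure_mono h2).trans ((measure_iUnion_fintype_le _ _).trans ?_)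
      rw [sum_congr rfl (fun i _ => pi_true p h0 h1 i), sum_const, card_univ, Fintype.card_fin,
        nsmul_eq_mul]
    have h4 : (cl p κ).real (P n) ≤ ((N / (d + 1) + 1 : ℕ) : ℝ) * p := by
      rw [Measure.real]
      apply ENNReal.toReal_le_of_le_ofReal (by positivity)
      rw [ENNReal.ofReal_mul (by positivity), ENNReal.ofReal_natCast]
      exact h3
    refine h4.trans ?_
    have hU : U n d = (d + 1) / n ^ 2 := by
      unfold U
      rw [max_eq_right]
      exact_mod_cast hd.le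
    rw [hU] at hpU
    have hd1 : (0 : ℝ) < d + 1 := by positivity
    have h5 : ((N / (d + 1) + 1 : ℕ) : ℝ) ≤ (n : ℝ) ^ 2 / 2 / (d + 1) + 1 := by
      push_cast
      have h6 : ((N / (d + 1) : ℕ) : ℝ) ≤ (N : ℝ) / (d + 1) := by
        have := Nat.cast_div_le (α := ℝ) (m := N) (n := d + 1)
        push_cast at this
        exact this
      have h7 : (N : ℝ) / (d + 1) ≤ (n : ℝ) ^ 2 / 2 / (d + 1) := by
        apply div_le_div_of_nonneg_right _ hd1.le
        rw [hN, card_edge_real hn]
        nlinarith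
      linarith
    have h8 : ((d : ℝ) + 1) ≤ n ^ 2 := by exact_mod_cast hdn
    calc ((N / (d + 1) + 1 : ℕ) : ℝ) * p ≤
          ((n : ℝ) ^ 2 / 2 / (d + 1) + 1) * (c * ((d + 1) / n ^ 2)) :=
          mul_le_mul h5 hpU h0 (by positivity)
      _ = c / 2 + c * ((d + 1) / n ^ 2) := by field_simp
      _ ≤ c / 2 + c * 1 := by
          apply add_le_add_right
          apply mul_le_mul_of_nonneg_left _ hc.le
          rw [div_le_one (by positivity)]
          exact h8
      _ ≤ 2 * c := by linarith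

end Property

/-! ### Asymptotics -/

section Asym

theorem tendsto_of_real {P : ∀ n, Set (SimpleGraph (Fin n))}
    {μ : ∀ n, Measure (SimpleGraph (Fin n))} {p : ℕ → ℝ} {d : ℕ → ℕ}
    (h : ∀ n, DepGraph n (p n) (d n) (μ n)) {x : ℝ≥0∞} (hx : x ≠ ⊤)
    (ht : Tendsto (fun n => (μ n).real (P n)) atTop (𝓝 x.toReal)) :
    Tendsto (fun n => μ n (P n)) atTop (𝓝 x) := by
  refine (ENNReal.tendsto_toReal_iff (fun n => ?_) hx).mp ht
  have := (h n).prob
  exact measure_ne_top _ _

theorem tendsto_zero {P : ∀ n, Set (SimpleGraph (Fin n))}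
    {μ : ∀ n, Measure (SimpleGraph (Fin n))} {p : ℕ → ℝ} {d : ℕ → ℕ}
    (h : ∀ n, DepGraph n (p n) (d n) (μ n))
    (ht : ∀ c : ℝ, 0 < c → c ≤ 1 → ∀ᶠ n in atTop, (μ n).real (P n) ≤ 2 * c) :
    Tendsto (fun n => μ n (P n)) atTop (𝓝 0) := by
  apply tendsto_of_real h ENNReal.zero_ne_top
  rw [ENNReal.toReal_zero, Metric.tendsto_nhds]
  intro ε hε
  have h1 := ht (min (ε / 3) 1) (lt_min (by linarith) one_pos) (min_le_right _ _)
  filter_upwards [h1] with n hn
  rw [Real.dist_eq, sub_zero, abs_of_nonneg measureReal_nonneg]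
  have := min_le_left (ε / 3) (1 : ℝ)
  linarith

theorem tendsto_one {P : ∀ n, Set (SimpleGraph (Fin n))}
    {μ : ∀ n, Measure (SimpleGraph (Fin n))} {p : ℕ → ℝ} {d : ℕ → ℕ}
    (h : ∀ n, DepGraph n (p n) (d n) (μ n))
    (ht : ∀ ε : ℝ, 0 < ε → ∀ᶠ n in atTop, 1 - ε < (μ n).real (P n)) :
    Tendsto (fun n => μ n (P n)) atTop (𝓝 1) := by
  apply tendsto_of_real h ENNReal.one_ne_top
  rw [ENNReal.toReal_one, Metric.tendsto_nhds]
  intro ε hε
  filter_upwards [ht ε hε] with n hn
  have := (h n).prob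
  have h1 : (μ n).real (P n) ≤ 1 := measureReal_le_one
  rw [Real.dist_eq, abs_lt]
  constructor <;> linarith

theorem d_small (d : ℕ → ℕ)
    (hd : (fun n => (d n : ℝ)) =O[atTop] fun n : ℕ => (n : ℝ) / Real.log n) :
    ∀ᶠ n in atTop, d n + 1 ≤ n ^ 2 := by
  obtain ⟨C, hC⟩ := hd.bound
  obtain ⟨M, hM⟩ := exists_nat_gt (|C| + 1)
  filter_upwards [hC, eventually_ge_atTop M, eventually_ge_atTop 3] with n h1 h2 h3
  have hn : (3 : ℝ) ≤ n := by exact_mod_cast h3
  have hMn : (M : ℝ) ≤ n := by exact_mod_cast h2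
  have hlog : 1 ≤ Real.log n := by
    rw [Real.le_log_iff_exp_le (by linarith)]
    have := Real.exp_one_lt_d9
    linarith
  rw [Real.norm_of_nonneg (Nat.cast_nonneg _), Real.norm_of_nonneg (by positivity)] at h1
  have h4 : (n : ℝ) / Real.log n ≤ n := div_le_self (by linarith) hlog
  have h5 : (0 : ℝ) ≤ n / Real.log n := by positivity
  have h6 : (d n : ℝ) ≤ |C| * n := by
    calc (d n : ℝ) ≤ C * (n / Real.log n) := h1
      _ ≤ |C| * (n / Real.log n) := mul_le_mul_of_nonneg_right (le_abs_self C) h5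
      _ ≤ |C| * n := mul_le_mul_of_nonneg_left h4 (abs_nonneg C)
  have h7 : ((d n + 1 : ℕ) : ℝ) ≤ ((n ^ 2 : ℕ) : ℝ) := by
    push_cast
    nlinarith [abs_nonneg C]
  exact_mod_cast h7

theorem threshold : ThresholdPair P L U := by
  refine ⟨fun n d hn => L_pos n d hn, L_le_U, ?_⟩
  intro p d hp hd
  refine ⟨?_, ?_, ?_⟩
  · intro hpL μ hμ
    apply tendsto_zero hμ
    intro c hc hc1
    filter_upwards [hpL.def hc, eventually_ge_atTop 1] with n h1 hn
    rw [Real.norm_of_nonneg (hp n).1, Real.norm_of_nonneg (L_nonneg _ _)] at h1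
    exact lack hn (hμ n) (hp n).1 c hc hc1 h1
  · intro hUp μ hμ
    apply tendsto_one hμ
    intro ε hε
    set K : ℝ := max 8 (17 / ε) with hK
    have hK8 : 8 ≤ K := le_max_left _ _
    have hK0 : 0 < K := by linarith
    have hKε : 16 / K < ε := by
      have : 17 / ε ≤ K := le_max_right _ _
      rw [div_lt_iff₀ hK0]
      rw [div_le_iff₀ hε] at this
      linarith
    filter_upwards [hUp.def (show 0 < 1 / K by positivity), eventually_ge_atTop 2] with n h1 hn
    rw [Real.norm_of_nonneg (hp n).1, Real.norm_of_nonneg (U_nonneg _ _)] at h1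
    have h2 : K * U n (d n) ≤ p n := by
      calc K * U n (d n) ≤ K * (1 / K * p n) := mul_le_mul_of_nonneg_left h1 hK0.le
        _ = p n := by field_simp
    have h3 := have_P hn (hμ n) K hK8 h2
    linarith
  · intro hLp hpU
    constructor
    · have hex : ∀ n, ∃ μ : Measure (SimpleGraph (Fin n)), DepGraph n (p n) (d n) μ ∧
          (1 ≤ d n → 1 - Real.exp (-(p n * ((n / 4 : ℕ) : ℝ) ^ 2)) ≤ μ.real (P n)) := by
        intro n
        by_cases h : 1 ≤ d n
        · obtain ⟨μ, h1, h2⟩ := pairs n (p n) (hp n).1 (hp n).2 (d n) h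
          exact ⟨μ, h1, fun _ => h2⟩
        · obtain ⟨μ, h1, -⟩ := low n (p n) (hp n).1 (hp n).2 (d n)
          exact ⟨μ, h1, fun h' => absurd h' h⟩
      choose μ hμ1 hμ2 using hex
      refine ⟨μ, hμ1, ?_⟩
      apply tendsto_one hμ1
      intro ε hε
      obtain ⟨K, hK⟩ : ∃ K : ℝ, 0 < K ∧ Real.exp (-(K / 64)) < ε := by
        obtain ⟨k, hk⟩ := exists_nat_gt (1 / ε)
        have hk0 : (0 : ℝ) < k := lt_trans (by positivity) hk
        refine ⟨64 * k, by positivity, ?_⟩
        rw [mul_div_cancel_left₀ _ (by norm_num : (64 : ℝ) ≠ 0), Real.exp_neg, inv_lt_comm₀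
          (Real.exp_pos _) hε]
        have h1 := Real.add_one_le_exp (k : ℝ)
        rw [one_div] at hk
        linarith
      filter_upwards [hLp.def (show 0 < 1 / K from one_div_pos.mpr hK.1),
        hLp.def (show (0 : ℝ) < 1 / 2 by norm_num), hpU.def (show (0 : ℝ) < 1 / 2 by norm_num),
        eventually_ge_atTop 4] with n h1 h2 h3 hn
      rw [Real.norm_of_nonneg (hp n).1, Real.norm_of_nonneg (L_nonneg _ _)] at h1 h2
      rw [Real.norm_of_nonneg (hp n).1, Real.norm_of_nonneg (U_nonneg _ _)] at h3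
      have hLpos := L_pos n (d n) (by omega)
      have hdn : 1 ≤ d n := by
        by_contra hcon
        have hd0 : d n = 0 := by omega
        rw [hd0] at h2 h3 hLpos
        have hLU : U n 0 = L n 0 := by
          unfold U L
          rw [if_pos rfl, max_eq_left]
          push_cast
          rw [zero_add]
          exact_mod_cast sqrt_pos (by omega : 1 ≤ n)
        rw [hLU] at h3
        linarith
      have h4 := hμ2 n hdn
      have hn0 : (0 : ℝ) < n := by
        have : 0 < n := by omega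
        exact_mod_cast this
      have h5 : K / n ^ 2 ≤ p n := by
        have h6 : L n (d n) = 1 / n ^ 2 := by
          unfold L
          rw [if_neg (by omega)]
        rw [h6] at h1
        calc K / n ^ 2 = K * (1 / n ^ 2) := by ring
          _ ≤ K * (1 / K * p n) := mul_le_mul_of_nonneg_left h1 hK.1.le
          _ = p n := by
            have := hK.1.ne'
            field_simp
      have h6 : (n : ℝ) / 8 ≤ ((n / 4 : ℕ) : ℝ) := by
        have h7 : n ≤ 8 * (n / 4) := by omega
        have h8 : (n : ℝ) ≤ 8 * ((n / 4 : ℕ) : ℝ) := by exact_mod_cast h7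
        linarith
      have h7 : K / 64 ≤ p n * ((n / 4 : ℕ) : ℝ) ^ 2 := by
        calc K / 64 = (K / n ^ 2) * ((n : ℝ) / 8) ^ 2 := by
              field_simp
              norm_num
          _ ≤ p n * ((n / 4 : ℕ) : ℝ) ^ 2 := by
              apply mul_le_mul h5 (pow_le_pow_left₀ (by positivity) h6 2) (by positivity) (hp n).1
      have h8 : Real.exp (-(p n * ((n / 4 : ℕ) : ℝ) ^ 2)) ≤ Real.exp (-(K / 64)) :=
        Real.exp_le_exp.mpr (by linarith)
      have := hK.2
      linarith
    · have hex : ∀ n, ∃ μ : Measure (SimpleGraph (Fin n)), DepGraph n (p n) (d n) μ ∧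
          ∀ c : ℝ, 0 < c → c ≤ 1 → 1 ≤ n → d n + 1 ≤ n ^ 2 → p n ≤ c * U n (d n) →
            μ.real (P n) ≤ 2 * c := fun n => low n (p n) (hp n).1 (hp n).2 (d n)
      choose μ hμ1 hμ2 using hex
      refine ⟨μ, hμ1, ?_⟩
      apply tendsto_zero hμ1
      intro c hc hc1
      filter_upwards [hpU.def hc, eventually_ge_atTop 1, d_small d hd] with n h1 hn h2
      rw [Real.norm_of_nonneg (hp n).1, Real.norm_of_nonneg (U_nonneg _ _)] at h1
      exact hμ2 n c hc hc1 hn h2 h1

theorem ratio_eq (n : ℕ) (hn : 1 ≤ n) : U n 1 / L n 1 = max (Nat.sqrt n : ℝ) 2 := by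
  unfold U L
  rw [if_neg one_ne_zero]
  have hn0 : (0 : ℝ) < n := by exact_mod_cast hn
  have : ((1 : ℕ) : ℝ) + 1 = 2 := by norm_num
  rw [this]
  field_simp

theorem ratio_tendsto : Tendsto (fun n => U n 1 / L n 1) atTop atTop := by
  rw [tendsto_atTop]
  intro b
  obtain ⟨k, hk⟩ := exists_nat_gt b
  filter_upwards [eventually_ge_atTop (k ^ 2), eventually_ge_atTop 1] with n hn hn1
  rw [ratio_eq n hn1]
  refine hk.le.trans (le_max_of_le_left ?_)
  have : k ≤ Nat.sqrt n := by
    rw [Nat.le_sqrt']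
    exact hn
  exact_mod_cast this

theorem one_isBigO :
    (fun _ : ℕ => ((1 : ℕ) : ℝ)) =O[atTop] fun n : ℕ => (n : ℝ) / Real.log n := by
  apply IsBigO.of_bound 1
  filter_upwards [eventually_ge_atTop 2] with n hn
  have hn2 : (2 : ℝ) ≤ n := by exact_mod_cast hn
  have hlog : 0 < Real.log n := Real.log_pos (by linarith)
  have h1 : Real.log n ≤ n := (Real.log_le_sub_one_of_pos (by linarith)).trans (by linarith)
  rw [one_mul, Real.norm_of_nonneg (by positivity), Real.norm_of_nonneg (by positivity),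
    Nat.cast_one, le_div_iff₀ hlog, one_mul]
  exact h1

end Asym

/-- There is a monotone property with a threshold pair whose ratio is not `O(f(d))` for any
function `f` of `d` alone; already for `d = 1` the ratio tends to infinity. -/
theorem result : ∃ (P : ∀ n, Set (SimpleGraph (Fin n))) (L U : ℕ → ℕ → ℝ),
    MonotoneProperty P ∧ ThresholdPair P L U ∧ Tendsto (fun n => U n 1 / L n 1) atTop atTop ∧
      ¬ ∃ f : ℕ → ℝ, RatioBounded L U f := by
  refine ⟨P, L, U, P_monotone, threshold, ratio_tendsto, ?_⟩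
  rintro ⟨f, hf⟩
  have h1 := hf (fun _ => 1) one_isBigO
  obtain ⟨C, hC⟩ := h1.bound
  obtain ⟨n, h2, h3⟩ := (hC.and (ratio_tendsto.eventually_gt_atTop (C * ‖f 1‖))).exists
  have h4 := le_abs_self (U n 1 / L n 1)
  rw [Real.norm_eq_abs] at h2
  linarith

end Pool.Agent.Results.MP_cca6ac_pr.ThresholdGap
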